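import Pool.Agent.E8helper32.SQ.Stm2
import Pool.Agent.H713R5.QJ.TKBP

set_option autoImplicit false

open Complex MeasureTheory Metric Set Filter Topology

namespace Pool.Agent.E8helper50.SQ

open Pool.Agent.E8helper32.SQ

theorem isOpen_HP (L : ℝ) : IsOpen (HP L) := isOpen_lt Complex.continuous_re continuous_const

theorem deriv_bound {L : ℝ} {H : ℂ → ℂ} (hH : DifferentiableOn ℂ H (HP L))
    (hI : InjOn H (HP L)) {s : ℂ} (hs : s.re < L - 9) :
    2 * ‖deriv H s‖ ≤ ‖H s - H ((L - 1 : ℝ) : ℂ)‖ := by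
  have hsub : ∀ w ∈ ball (0 : ℂ) 8, s + w ∈ HP L ∧ (s + w).re < L - 1 := by
    intro w hw
    have h1 : ‖w‖ < 8 := by simpa using hw
    have h2 : w.re ≤ ‖w‖ := Complex.re_le_norm w
    have h3 : (s + w).re < L - 1 := by
      rw [Complex.add_re]; linarith
    refine ⟨?_, h3⟩
    change (s + w).re < L
    linarith
  have hp : ((L - 1 : ℝ) : ℂ) ∈ HP L := by
    change (((L - 1 : ℝ) : ℂ)).re < L
    rw [Complex.ofReal_re]; linarith
  have hZd : DifferentiableOn ℂ (fun w => H (s + w)) (ball 0 8) := by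
    refine hH.comp ((differentiable_const s).add differentiable_id).differentiableOn ?_
    intro w hw
    exact (hsub w hw).1
  have hZi : InjOn (fun w => H (s + w)) (ball 0 8) := by
    intro w hw w' hw' h
    have := hI (hsub w hw).1 (hsub w' hw').1 h
    exact add_left_cancel this
  have hu : ∀ w ∈ ball (0 : ℂ) 8, (fun w => H (s + w)) w ≠ H ((L - 1 : ℝ) : ℂ) := by
    intro w hw h
    have h1 := hI (hsub w hw).1 hp h
    have h2 := (hsub w hw).2
    rw [h1, Complex.ofReal_re] at h2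
    exact lt_irrefl _ h2
  have := Pool.Agent.H713R5.QJ.kb_omit (by norm_num : (0 : ℝ) < 8) hZd hZi hu
  have hder : deriv (fun w => H (s + w)) 0 = deriv H s := by
    rw [deriv_comp_const_add]
    simp
  rw [hder] at this
  simp only [add_zero] at this
  linarith

theorem line_mono {L : ℝ} {H : ℂ → ℂ} (hH : DifferentiableOn ℂ H (HP L))
    (hI : InjOn H (HP L)) (y : ℝ) {x : ℝ} (hx : x ≤ L - 10) :
    ‖H (x + y * I) - H ((L - 1 : ℝ) : ℂ)‖ ^ 2 * Real.exp x ≤
      ‖H ((L - 10 : ℝ) + y * I) - H ((L - 1 : ℝ) : ℂ)‖ ^ 2 * Real.exp (L - 10) := by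
  set p : ℂ := H ((L - 1 : ℝ) : ℂ) with hp
  have hre : ∀ t : ℝ, ((t : ℂ) + y * I).re = t := by
    intro t; simp
  have hder : ∀ t : ℝ, t ≤ L - 10 → HasDerivAt (fun t : ℝ => ‖H (t + y * I) - p‖ ^ 2 * Real.exp t)
      (2 * inner ℝ (H (t + y * I) - p) (deriv H (t + y * I)) * Real.exp t +
        ‖H (t + y * I) - p‖ ^ 2 * Real.exp t) t := by
    intro t ht
    have hmem : ((t : ℂ) + y * I) ∈ HP L := by
      change ((t : ℂ) + y * I).re < L
      rw [hre]; linarith
    have h1 : HasDerivAt H (deriv H (t + y * I)) ((t : ℂ) + y * I) :=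
      (hH.differentiableAt ((isOpen_HP L).mem_nhds hmem)).hasDerivAt
    have h2 : HasDerivAt (fun t : ℝ => (t : ℂ) + y * I) 1 t := by
      have := (hasDerivAt_id (t : ℂ)).comp_ofReal.add_const (y * I)
      simpa using this
    have h3 : HasDerivAt (fun t : ℝ => H (t + y * I)) (deriv H (t + y * I)) t := by
      have := HasDerivAt.scomp (𝕜 := ℝ) (𝕜' := ℂ) t h1 h2
      simpa [Function.comp_def] using this
    have h4 := (h3.sub_const p).norm_sq
    have h5 := h4.mul (Real.hasDerivAt_exp t)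
    exact h5
  have hmono : MonotoneOn (fun t : ℝ => ‖H (t + y * I) - p‖ ^ 2 * Real.exp t) (Iic (L - 10)) := by
    refine monotoneOn_of_deriv_nonneg (convex_Iic _) ?_ ?_ ?_
    · intro t ht
      exact (hder t ht).continuousAt.continuousWithinAt
    · intro t ht
      rw [interior_Iic] at ht
      exact (hder t (le_of_lt ht)).differentiableAt.differentiableWithinAt
    · intro t ht
      rw [interior_Iic] at ht
      have ht' : t ≤ L - 10 := le_of_lt ht
      rw [(hder t ht').deriv]
      have hb := deriv_bound hH hI (s := (t : ℂ) + y * I) (by rw [hre]; linarith)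
      rw [← hp] at hb
      have hin : -(‖H (t + y * I) - p‖ * ‖deriv H (t + y * I)‖) ≤
          inner ℝ (H (t + y * I) - p) (deriv H (t + y * I)) := by
        have := abs_real_inner_le_norm (H (t + y * I) - p) (deriv H (t + y * I))
        exact (abs_le.mp this).1
      have he := Real.exp_pos t
      have hn := norm_nonneg (H (t + y * I) - p)
      have : 0 ≤ 2 * inner ℝ (H (t + y * I) - p) (deriv H (t + y * I)) +
          ‖H (t + y * I) - p‖ ^ 2 := by
        nlinarith
      nlinarith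
  have := hmono (mem_Iic.mpr hx) (mem_Iic.mpr (le_refl (L - 10))) hx
  simpa using this

theorem grow : S_GROW := by
  intro L B H hH hI η hη
  set p : ℂ := H ((L - 1 : ℝ) : ℂ) with hp
  obtain ⟨C, hC0, hC⟩ : ∃ C : ℝ, 0 ≤ C ∧ ∀ y : ℝ, |y| ≤ B →
      ‖H ((L - 10 : ℝ) + y * I) - p‖ ≤ C := by
    have hcont : ContinuousOn (fun y : ℝ => ‖H ((L - 10 : ℝ) + y * I) - p‖) (Icc (-B) B) := by
      refine ContinuousOn.norm (ContinuousOn.sub ?_ continuousOn_const)
      refine hH.continuousOn.comp (Continuous.continuousOn (by fun_prop)) ?_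
      intro y _
      change (((L - 10 : ℝ) : ℂ) + y * I).re < L
      simp
    obtain ⟨C, hC⟩ := (isCompact_Icc.bddAbove_image hcont)
    refine ⟨max C 0, le_max_right _ _, fun y hy => le_trans (hC ⟨y, abs_le.mp hy, rfl⟩) (le_max_left _ _)⟩
  have hlim : Tendsto (fun x : ℝ => Real.exp x * ‖p‖ + C * Real.exp ((L - 10 + x) / 2)) atBot
      (𝓝 (0 * ‖p‖ + C * 0)) := by
    refine Tendsto.add (Real.tendsto_exp_atBot.mul_const _) (Tendsto.const_mul _ ?_)
    refine Real.tendsto_exp_atBot.comp ?_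
    have h1 : Tendsto (fun x : ℝ => (1 / 2 : ℝ) * x + (L - 10) / 2) atBot atBot :=
      tendsto_atBot_add_const_right _ _ (Tendsto.const_mul_atBot (by norm_num) tendsto_id)
    refine h1.congr (fun x => by ring)
  have hev : ∀ᶠ x in atBot, Real.exp x * ‖p‖ + C * Real.exp ((L - 10 + x) / 2) < η := by
    refine hlim.eventually_lt_const ?_
    simpa using hη
  obtain ⟨x1, hx1⟩ := (hev.and (eventually_le_atBot (L - 10))).exists_forall_of_atBot
  refine ⟨min x1 L, min_le_right _ _, ?_⟩
  intro s hs hB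
  have hsx : s.re ≤ x1 := le_of_lt (lt_of_lt_of_le hs (min_le_left _ _))
  obtain ⟨h1, h2⟩ := hx1 s.re hsx
  have hl := line_mono hH hI s.im h2
  rw [Complex.re_add_im] at hl
  rw [← hp] at hl
  have hCs := hC s.im hB
  have hsq : ‖H s - p‖ ^ 2 ≤ (C * Real.exp ((L - 10 - s.re) / 2)) ^ 2 := by
    have he : Real.exp ((L - 10 - s.re) / 2) ^ 2 * Real.exp s.re = Real.exp (L - 10) := by
      rw [← Real.exp_nat_mul, ← Real.exp_add]
      congr 1
      push_cast
      ring
    have hep := Real.exp_pos s.re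
    have h3 : ‖H s - p‖ ^ 2 * Real.exp s.re ≤ C ^ 2 * Real.exp (L - 10) := by
      refine le_trans hl ?_
      refine mul_le_mul_of_nonneg_right ?_ (Real.exp_pos _).le
      exact pow_le_pow_left₀ (norm_nonneg _) hCs 2
    rw [mul_pow]
    rw [← he, ← mul_assoc] at h3
    exact le_of_mul_le_mul_right h3 hep
  have hle : ‖H s - p‖ ≤ C * Real.exp ((L - 10 - s.re) / 2) :=
    abs_le_of_sq_le_sq' hsq (by positivity) |>.2
  have hfin : ‖H s‖ ≤ ‖p‖ + C * Real.exp ((L - 10 - s.re) / 2) := by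
    calc ‖H s‖ = ‖p + (H s - p)‖ := by congr 1; ring
      _ ≤ ‖p‖ + ‖H s - p‖ := norm_add_le _ _
      _ ≤ _ := by linarith
  have hE : Real.exp s.re * (C * Real.exp ((L - 10 - s.re) / 2)) =
      C * Real.exp ((L - 10 + s.re) / 2) := by
    rw [mul_left_comm, ← Real.exp_add]
    congr 2
    ring
  have := mul_le_mul_of_nonneg_left hfin (Real.exp_pos s.re).le
  rw [mul_add, hE] at this
  linarith

end Pool.Agent.E8helper50.SQ
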